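import Pool.Agent.H.MP_9bbf37_lc.C

namespace Pool.Agent.Results.MP_9bbf37_lc.Formula

open Pool.Agent.H.MP_9bbf37_lc
open scoped NNReal ENNReal

theorem main {α : Type} [DecidableEq α] (k : ℕ) (hk : 1 ≤ k) (hα : ∃ T : Finset α, k < T.card)
    (M0 : Finset α) (h0 : M0.card ≤ k) (i l : ℕ) :
    comp k i l M0 = ((min k (l / (i + 1) + 1) : ℕ) : ℝ≥0∞) := by
  obtain ⟨T, hT⟩ := hα
  have : Nonempty α := (Finset.card_pos.1 (show 0 < T.card by omega)).to_type
  have up : ∀ (c b : ℕ) (A B : Alg α), (∀ σ, cost k i A M0 σ ≤ c * cost k l B M0 σ + b) →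
      ratio k i l M0 A B ≤ c := fun c b A B h =>
    iInf₂_le_of_le (c : ℝ≥0) ⟨b, fun σ => by exact_mod_cast h σ⟩ (by simp)
  apply le_antisymm
  · refine iSup_le fun B => ?_
    rcases le_total k (l / (i + 1) + 1) with h | h
    · obtain ⟨A, hA⟩ := lru hk h0 i l B
      rw [min_eq_left h]
      exact iInf_le_of_le A (up _ _ A B hA)
    · obtain ⟨A, hA⟩ := delayed hk h0 i l B
      rw [min_eq_right h]
      exact iInf_le_of_le A (up _ 0 A B hA)
  · obtain ⟨S, hs, -, hS⟩ := Finset.exists_subsuperset_card_eq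
      (Finset.subset_union_left (s₁ := M0) (s₂ := T)) (show M0.card ≤ k + 1 by omega)
      (le_trans hT (Finset.card_le_card Finset.subset_union_right))
    obtain ⟨m, hm⟩ : ∃ m, min k (l / (i + 1) + 1) = m + 1 :=
      ⟨min k (l / (i + 1) + 1) - 1, by
        have : 1 ≤ min k (l / (i + 1) + 1) := le_min hk (Nat.le_add_left _ _)
        omega⟩
    have h1 : m + 1 ≤ k := hm ▸ min_le_left _ _
    have h2 : m ≤ l / (i + 1) := by
      have := min_le_right k (l / (i + 1) + 1)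
      omega
    obtain ⟨B, hB⟩ := far (i := i) h0 hS hs h1 ((Nat.le_div_iff_mul_le (Nat.succ_pos i)).1 h2)
    refine le_iSup_of_le B (le_iInf fun A => le_iInf₂ fun c ⟨b, hb⟩ => ?_)
    rw [hm]
    have key : ((m : ℝ) + 1) ≤ c := by
      by_contra hn
      obtain ⟨N, hN⟩ := exists_nat_gt
        ((c * ((m + 1) * (k + 1)) + (m + 1) * b) / (m + 1 - c) : ℝ)
      rw [div_lt_iff₀ (by linarith)] at hN
      obtain ⟨P, σ, a1, a2, a3⟩ := adversary (i := i) hk h0 hS A N
      have a4 : ((m : ℝ) + 1) * cost k l B M0 σ ≤ N + (m + 1) * (k + 1) := by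
        exact_mod_cast hB N P σ a1 a2
      have a5 : (N : ℝ) ≤ cost k i A M0 σ := by exact_mod_cast a3
      have a6 := mul_le_mul_of_nonneg_left (a5.trans (hb σ)) (show (0 : ℝ) ≤ m + 1 by positivity)
      have a7 := mul_le_mul_of_nonneg_left a4 c.2
      have : (c.1 : ℝ) = c := rfl
      nlinarith
    exact_mod_cast key

theorem result {α : Type} [DecidableEq α] (k : ℕ) (hk : 1 ≤ k) (hα : ∃ T : Finset α, k < T.card)
    (M0 : Finset α) (h0 : M0.card ≤ k) :
    (∀ i l : ℕ, comp k i l M0 = ((min k (l / (i + 1) + 1) : ℕ) : ℝ≥0∞)) ∧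
      comp k 1 3 M0 = comp k 2 3 M0 :=
  ⟨main k hk hα M0 h0, by rw [main k hk hα M0 h0, main k hk hα M0 h0]⟩

end Pool.Agent.Results.MP_9bbf37_lc.Formula
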